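import Mathlib

namespace Pool.Agent.Work.MP_73128c_co

open Finset

/-- Boolean bounded universal quantifier. -/
def allLt (n : ℕ) (f : ℕ → Bool) : Bool :=
  Nat.rec true (fun i r => r && f i) n

/-- Boolean bounded existential quantifier. -/
def anyLt (n : ℕ) (f : ℕ → Bool) : Bool :=
  Nat.rec false (fun i r => r || f i) n

/-- Bounded sum. -/
def sumLt (n : ℕ) (f : ℕ → ℕ) : ℕ :=
  Nat.rec 0 (fun i r => r + f i) n

lemma allLt_iff (n : ℕ) (f : ℕ → Bool) : allLt n f = true ↔ ∀ i < n, f i = true := by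
  induction n with
  | zero => simp [allLt]
  | succ n ih =>
    have : allLt (n + 1) f = (allLt n f && f n) := rfl
    rw [this, Bool.and_eq_true, ih]
    constructor
    · rintro ⟨h1, h2⟩ i hi
      rcases Nat.lt_succ_iff_lt_or_eq.1 hi with h | h
      · exact h1 i h
      · exact h ▸ h2
    · intro h
      exact ⟨fun i hi => h i (by omega), h n (by omega)⟩

lemma anyLt_iff (n : ℕ) (f : ℕ → Bool) : anyLt n f = true ↔ ∃ i < n, f i = true := by
  induction n with
  | zero => simp [anyLt]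
  | succ n ih =>
    have : anyLt (n + 1) f = (anyLt n f || f n) := rfl
    rw [this, Bool.or_eq_true, ih]
    constructor
    · rintro (⟨i, hi, h⟩ | h)
      · exact ⟨i, by omega, h⟩
      · exact ⟨n, by omega, h⟩
    · rintro ⟨i, hi, h⟩
      rcases Nat.lt_succ_iff_lt_or_eq.1 hi with h' | h'
      · exact Or.inl ⟨i, h', h⟩
      · exact Or.inr (h' ▸ h)

lemma sumLt_eq (n : ℕ) (f : ℕ → ℕ) : sumLt n f = ∑ i : Fin n, f i := by
  rw [Fin.sum_univ_eq_sum_range (fun i => f i) n]
  induction n with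
  | zero => simp [sumLt]
  | succ n ih =>
    have : sumLt (n + 1) f = sumLt n f + f n := rfl
    rw [this, ih, Finset.sum_range_succ]

def hsh (x : ℕ) : ℕ := (x * x + 3 * x + 1) % 1000003

def gsh (x : ℕ) : ℕ := (x * x * x + 5) % 1000003

/-- Colour refinement on the vertices satisfying `ok`, starting from the colouring `c0`. -/
def col (n : ℕ) (A : ℕ → ℕ → Bool) (ok : ℕ → Bool) (c0 : ℕ → ℕ) (r : ℕ) : ℕ → ℕ :=
  Nat.rec c0 (fun _ c w => gsh (c w) + sumLt n (fun t => bif A w t && ok t then hsh (c t) else 0)) r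

/-- The invariant read off from `col`. -/
def inv (n : ℕ) (A : ℕ → ℕ → Bool) (ok : ℕ → Bool) (c0 : ℕ → ℕ) (r : ℕ) : ℕ :=
  sumLt n (fun w => bif ok w then hsh (col n A ok c0 r w) else 0)

lemma col_map {n : ℕ} (A : ℕ → ℕ → Bool) (ok ok' : ℕ → Bool) (c0 c0' : ℕ → ℕ)
    (π : Equiv.Perm (Fin n)) (hok : ∀ t : Fin n, ok' (π t) = ok t)
    (hc : ∀ t : Fin n, c0' (π t) = c0 t)
    (hA : ∀ a b : Fin n, ok a = true → ok b = true → A (π a) (π b) = A a b) (r : ℕ) :
    ∀ w : Fin n, ok w = true → col n A ok' c0' r (π w) = col n A ok c0 r w := by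
  induction r with
  | zero => intro w _; exact hc w
  | succ r ih =>
    intro w hw
    have e1 : col n A ok' c0' (r + 1) (π w) = gsh (col n A ok' c0' r (π w)) +
        sumLt n (fun t => bif A (π w) t && ok' t then hsh (col n A ok' c0' r t) else 0) := rfl
    have e2 : col n A ok c0 (r + 1) w = gsh (col n A ok c0 r w) +
        sumLt n (fun t => bif A w t && ok t then hsh (col n A ok c0 r t) else 0) := rfl
    rw [e1, e2, ih w hw, sumLt_eq, sumLt_eq]
    congr 1
    rw [← Equiv.sum_comp π]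
    refine Finset.sum_congr rfl fun t _ => ?_
    rw [hok t]
    cases ht : ok t with
    | false => simp
    | true => rw [hA w t hw ht, ih t ht]

lemma inv_map {n : ℕ} (A : ℕ → ℕ → Bool) (ok ok' : ℕ → Bool) (c0 c0' : ℕ → ℕ)
    (π : Equiv.Perm (Fin n)) (hok : ∀ t : Fin n, ok' (π t) = ok t)
    (hc : ∀ t : Fin n, c0' (π t) = c0 t)
    (hA : ∀ a b : Fin n, ok a = true → ok b = true → A (π a) (π b) = A a b) (r : ℕ) :
    inv n A ok' c0' r = inv n A ok c0 r := by
  unfold inv
  rw [sumLt_eq, sumLt_eq, ← Equiv.sum_comp π]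
  refine Finset.sum_congr rfl fun t _ => ?_
  rw [hok t]
  cases ht : ok t with
  | false => simp
  | true => rw [col_map A ok ok' c0 c0' π hok hc hA r t ht]

/-- Invariant of the card at `u`. -/
def cardInv (n : ℕ) (A : ℕ → ℕ → Bool) (r u : ℕ) : ℕ :=
  inv n A (fun t => !(Nat.beq t u)) (fun _ => 0) r

/-- Invariant of the rooted graph at `u`. -/
def rootInv (n : ℕ) (A : ℕ → ℕ → Bool) (r u : ℕ) : ℕ :=
  inv n A (fun _ => true) (fun t => bif Nat.beq t u then 1 else 0) r

/-- A finer invariant of the rooted graph at `u`. -/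
def rootInv2 (n : ℕ) (A : ℕ → ℕ → Bool) (r u : ℕ) : ℕ :=
  sumLt n (fun w => hsh (inv n A (fun _ => true)
    (fun t => (bif Nat.beq t u then 1 else 0) + (bif Nat.beq t w then 2 else 0)) r))

lemma beq_perm {n : ℕ} (π : Equiv.Perm (Fin n)) (a b : Fin n) :
    Nat.beq (π a) (π b) = Nat.beq a b := by
  rw [Bool.eq_iff_iff, Nat.beq_eq, Nat.beq_eq, Fin.val_inj, Fin.val_inj]
  exact π.injective.eq_iff

lemma cardInv_eq {n : ℕ} (A : ℕ → ℕ → Bool) (π : Equiv.Perm (Fin n)) (u : Fin n)
    (hA : ∀ a b : Fin n, a ≠ u → b ≠ u → A (π a) (π b) = A a b) (r : ℕ) :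
    cardInv n A r (π u) = cardInv n A r u := by
  unfold cardInv
  refine inv_map A _ _ _ _ π (fun t => by rw [beq_perm]) (fun _ => rfl) ?_ r
  intro a b ha hb
  refine hA a b ?_ ?_
  · rintro rfl
    simp at ha
  · rintro rfl
    simp at hb

lemma rootInv_eq {n : ℕ} (A : ℕ → ℕ → Bool) (π : Equiv.Perm (Fin n)) (u : Fin n)
    (hA : ∀ a b : Fin n, A (π a) (π b) = A a b) (r : ℕ) :
    rootInv n A r (π u) = rootInv n A r u := by
  unfold rootInv
  exact inv_map A _ _ _ _ π (fun _ => rfl) (fun t => by rw [beq_perm]) (fun a b _ _ => hA a b) r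

lemma rootInv2_eq {n : ℕ} (A : ℕ → ℕ → Bool) (π : Equiv.Perm (Fin n)) (u : Fin n)
    (hA : ∀ a b : Fin n, A (π a) (π b) = A a b) (r : ℕ) :
    rootInv2 n A r (π u) = rootInv2 n A r u := by
  unfold rootInv2
  rw [sumLt_eq, sumLt_eq, ← Equiv.sum_comp π]
  refine Finset.sum_congr rfl fun w _ => ?_
  congr 1
  exact inv_map A _ _ _ _ π (fun _ => rfl) (fun t => by rw [beq_perm, beq_perm])
    (fun a b _ _ => hA a b) r

/-- The graph on `Fin n` with adjacency table `A`. -/
def gr (n : ℕ) (A : ℕ → ℕ → Bool) (hs : ∀ a b : Fin n, A a b = A b a)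
    (hi : ∀ a : Fin n, A a a = false) : SimpleGraph (Fin n) where
  Adj a b := A a b = true
  symm := ⟨fun a b h => by rw [← hs]; exact h⟩
  loopless := ⟨fun a h => by simp [hi a] at h⟩

/-- The relation of having isomorphic cards. -/
def CardRel {V : Type*} (G : SimpleGraph V) (u v : V) : Prop :=
  Nonempty (G.induce ({u}ᶜ : Set V) ≃g G.induce ({v}ᶜ : Set V))

lemma cardRel_iff {V : Type*} [DecidableEq V] (G : SimpleGraph V) (u v : V) :
    CardRel G u v ↔ ∃ π : Equiv.Perm V, π u = v ∧
      ∀ a b, a ≠ u → b ≠ u → (G.Adj (π a) (π b) ↔ G.Adj a b) := by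
  constructor
  · rintro ⟨φ⟩
    let f : V → V := fun a => if h : a = u then v else (φ ⟨a, h⟩ : V)
    let g : V → V := fun b => if h : b = v then u else (φ.symm ⟨b, h⟩ : V)
    have hfg : ∀ a, g (f a) = a := by
      intro a
      by_cases h : a = u
      · simp [f, g, h]
      · have h2 : (φ ⟨a, h⟩ : V) ≠ v := (φ ⟨a, h⟩).2
        simp only [f, g, dif_neg h, dif_neg h2]
        have : (⟨(φ ⟨a, h⟩ : V), h2⟩ : ({v}ᶜ : Set V)) = φ ⟨a, h⟩ := rfl
        rw [this, RelIso.symm_apply_apply]
    have hgf : ∀ b, f (g b) = b := by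
      intro b
      by_cases h : b = v
      · simp [f, g, h]
      · have h2 : (φ.symm ⟨b, h⟩ : V) ≠ u := (φ.symm ⟨b, h⟩).2
        simp only [f, g, dif_neg h, dif_neg h2]
        have : (⟨(φ.symm ⟨b, h⟩ : V), h2⟩ : ({u}ᶜ : Set V)) = φ.symm ⟨b, h⟩ := rfl
        rw [this, RelIso.apply_symm_apply]
    refine ⟨⟨f, g, hfg, hgf⟩, by simp [f], ?_⟩
    intro a b ha hb
    simp only [Equiv.coe_fn_mk, f, dif_neg ha, dif_neg hb]
    exact φ.map_rel_iff (a := ⟨a, ha⟩) (b := ⟨b, hb⟩)
  · rintro ⟨π, hπ, h⟩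
    refine ⟨⟨π.subtypeEquiv (p := fun a => a ∈ ({u}ᶜ : Set V))
      (q := fun a => a ∈ ({v}ᶜ : Set V)) ?_, ?_⟩⟩
    · intro a
      simp only [Set.mem_compl_iff, Set.mem_singleton_iff, ← hπ]
      exact (not_congr π.injective.eq_iff).symm
    · intro a b
      exact h a b a.2 b.2

lemma cardRel_equivalence {V : Type*} (G : SimpleGraph V) : Equivalence (CardRel G) :=
  ⟨fun _ => ⟨SimpleGraph.Iso.refl⟩, fun ⟨φ⟩ => ⟨φ.symm⟩, fun ⟨φ⟩ ⟨ψ⟩ => ⟨φ.trans ψ⟩⟩

/-- All finite checks except the separation of the two pseudo-similar vertices. -/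
def check (n k r : ℕ) (A : ℕ → ℕ → Bool) (ty rep : ℕ → ℕ) (p : ℕ → ℕ → ℕ) : Bool :=
  allLt n (fun a => !(A a a) && allLt n (fun b => A a b == A b a)) &&
  allLt n (fun a => Nat.beq a 0 || anyLt a (fun b => A a b)) &&
  allLt n (fun a => Nat.blt (ty a) k) &&
  allLt k (fun t => Nat.blt (rep t) n && Nat.beq (ty (rep t)) t) &&
  allLt k (fun t => allLt t (fun s => !(Nat.beq (cardInv n A r (rep s)) (cardInv n A r (rep t)))))

/-- The check of the card isomorphism at `u`. -/
def checkPerm (n : ℕ) (A : ℕ → ℕ → Bool) (ty rep : ℕ → ℕ) (p : ℕ → ℕ → ℕ) (u : ℕ) : Bool :=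
  Nat.beq (p u u) (rep (ty u)) &&
  allLt n (fun a => Nat.blt (p u a) n &&
    allLt n (fun b => (Nat.beq a b || !(Nat.beq (p u a) (p u b))) &&
      (Nat.beq a u || Nat.beq b u || (A (p u a) (p u b) == A a b))))

theorem key (n k r : ℕ) (A : ℕ → ℕ → Bool) (ty rep : ℕ → ℕ) (p : ℕ → ℕ → ℕ) (hn : 0 < n)
    (h1 : check n k r A ty rep p = true)
    (h2 : allLt n (checkPerm n A ty rep p) = true)
    (e : ℕ) (he : e < n) (J : ℕ → ℕ)
    (hJ : ∀ (π : Equiv.Perm (Fin n)) (u : Fin n), (∀ a b : Fin n, A (π a) (π b) = A a b) →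
      J (π u) = J u)
    (hJe : J e ≠ J (rep (ty e))) :
    ∃ G : SimpleGraph (Fin n), G.Connected ∧ Nat.card (Quot (CardRel G)) = k ∧
      k < Nat.card (MulAction.orbitRel.Quotient (G ≃g G) (Fin n)) := by
  simp only [check, Bool.and_eq_true, allLt_iff, Bool.or_eq_true, anyLt_iff, Nat.beq_eq,
    Nat.blt_eq, Bool.not_eq_true', beq_iff_eq] at h1
  obtain ⟨⟨⟨⟨hsym, hcon⟩, hty⟩, hrep⟩, hsep⟩ := h1
  have hs : ∀ a b : Fin n, A a b = A b a := fun a b => (hsym a a.2).2 b b.2
  have hi : ∀ a : Fin n, A a a = false := fun a => (hsym a a.2).1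
  set G := gr n A hs hi with hG
  have hadj : ∀ a b : Fin n, G.Adj a b ↔ A a b = true := fun a b => Iff.rfl
  let tyF : Fin n → Fin k := fun a => ⟨ty a, hty a a.2⟩
  let repF : Fin k → Fin n := fun t => ⟨rep t, (hrep t t.2).1⟩
  have htr : ∀ t, tyF (repF t) = t := fun t => Fin.ext (hrep t t.2).2
  have hcr : ∀ u : Fin n, CardRel G u (repF (tyF u)) := by
    intro u
    have h := (allLt_iff _ _).1 h2 u u.2
    simp only [checkPerm, Bool.and_eq_true, allLt_iff, Bool.or_eq_true, Nat.beq_eq,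
      Nat.blt_eq, Bool.not_eq_true', beq_iff_eq] at h
    obtain ⟨hu, hab⟩ := h
    let f : Fin n → Fin n := fun a => ⟨p u a, (hab a a.2).1⟩
    have hf : Function.Injective f := by
      intro a b hfab
      have h3 : p u a = p u b := congrArg Fin.val hfab
      rcases ((hab a a.2).2 b b.2).1 with h4 | h4
      · exact Fin.ext h4
      · rw [h3] at h4
        simp at h4
    rw [cardRel_iff]
    refine ⟨Equiv.ofBijective f (Finite.injective_iff_bijective.1 hf), Fin.ext hu, ?_⟩
    intro a b ha hb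
    rcases ((hab a a.2).2 b b.2).2 with (h4 | h4) | h4
    · exact absurd (Fin.ext h4) ha
    · exact absurd (Fin.ext h4) hb
    · rw [hadj, hadj]
      exact Iff.of_eq (congrArg (· = true) h4)
  have hinv : ∀ u v : Fin n, CardRel G u v → cardInv n A r u = cardInv n A r v := by
    intro u v huv
    obtain ⟨π, rfl, hπ⟩ := (cardRel_iff G u v).1 huv
    refine (cardInv_eq A π u ?_ r).symm
    intro a b ha hb
    exact Bool.eq_iff_iff.2 (hπ a b ha hb)
  have hE := cardRel_equivalence G
  have hiff : ∀ u v : Fin n, CardRel G u v ↔ tyF u = tyF v := by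
    intro u v
    constructor
    · intro huv
      have h3 : CardRel G (repF (tyF u)) (repF (tyF v)) :=
        hE.trans (hE.symm (hcr u)) (hE.trans huv (hcr v))
      have h4 := hinv _ _ h3
      by_contra hne
      rcases lt_or_gt_of_ne hne with h5 | h5
      · have := hsep (tyF v) (tyF v).2 (tyF u) h5
        rw [← Bool.not_eq_true, Nat.beq_eq] at this
        exact this h4
      · have := hsep (tyF u) (tyF u).2 (tyF v) h5
        rw [← Bool.not_eq_true, Nat.beq_eq] at this
        exact this h4.symm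
    · intro huv
      exact hE.trans (hcr u) (huv ▸ hE.symm (hcr v))
  refine ⟨G, ?_, ?_, ?_⟩
  · haveI : Nonempty (Fin n) := ⟨⟨0, hn⟩⟩
    refine SimpleGraph.Connected.mk ?_
    have h0 : ∀ m : ℕ, ∀ a : Fin n, a.val = m → G.Reachable a ⟨0, hn⟩ := by
      intro m
      induction m using Nat.strong_induction_on with
      | _ m ih =>
        intro a ha
        rcases hcon a a.2 with h3 | ⟨b, hb, h3⟩
        · have : a = ⟨0, hn⟩ := Fin.ext h3
          rw [this]
        · have hb' : b < n := lt_trans hb a.2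
          have h4 : G.Adj a ⟨b, hb'⟩ := h3
          exact h4.reachable.trans (ih b (ha ▸ hb) ⟨b, hb'⟩ rfl)
    intro a b
    exact (h0 _ a rfl).trans (h0 _ b rfl).symm
  · have : Quot (CardRel G) ≃ Fin k :=
      { toFun := Quot.lift tyF (fun a b hab => (hiff a b).1 hab)
        invFun := fun t => Quot.mk _ (repF t)
        left_inv := by
          rintro ⟨a⟩
          exact Quot.sound (hE.symm (hcr a))
        right_inv := fun t => htr t }
    rw [Nat.card_congr this, Nat.card_eq_fintype_card, Fintype.card_fin]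
  · let eF : Fin n := ⟨e, he⟩
    let w : Option (Fin k) → Fin n := fun o => o.elim eF repF
    let q : Option (Fin k) → MulAction.orbitRel.Quotient (G ≃g G) (Fin n) :=
      fun o => Quotient.mk _ (w o)
    have horb : ∀ a b : Fin n, (MulAction.orbitRel (G ≃g G) (Fin n)) a b →
        tyF a = tyF b ∧ J a = J b := by
      intro a b hab
      obtain ⟨φ, hφ⟩ := MulAction.orbitRel_apply.1 hab
      have h3 : φ b = a := hφ
      have h4 : ∀ x y : Fin n, G.Adj (φ.toEquiv x) (φ.toEquiv y) ↔ G.Adj x y :=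
        fun x y => φ.map_rel_iff
      constructor
      · refine ((hiff b a).1 ?_).symm
        rw [cardRel_iff]
        exact ⟨φ.toEquiv, h3, fun x y _ _ => h4 x y⟩
      · rw [← h3]
        exact hJ φ.toEquiv b (fun x y => Bool.eq_iff_iff.2 (h4 x y))
    have hq : Function.Injective q := by
      intro o1 o2 h3
      obtain ⟨h4, h5⟩ := horb _ _ (Quotient.exact h3)
      cases o1 with
      | none =>
        cases o2 with
        | none => rfl
        | some t =>
          exfalso
          have h6 : tyF eF = t := h4.trans (htr t)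
          apply hJe
          rw [← h6] at h5
          exact h5
      | some s =>
        cases o2 with
        | none =>
          exfalso
          have h6 : s = tyF eF := (htr s).symm.trans h4
          apply hJe
          rw [h6] at h5
          exact h5.symm
        | some t =>
          have h6 : s = t := (htr s).symm.trans (h4.trans (htr t))
          rw [h6]
    have := Nat.card_le_card_of_injective q hq
    simp only [Nat.card_eq_fintype_card, Fintype.card_option, Fintype.card_fin] at this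
    omega

end Pool.Agent.Work.MP_73128c_co
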